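import Pool.Agent.Run7.h491.HP.Stm

/-!
# `Ω`-stable diffeomorphisms have no periodic homogeneous submanifolds `G / Γ`, all classes `C^r`

`V n = ℝⁿ`, `DiffM n N r = Diff^r(N)`, `strongTop n N r` is its strong (Whitney) `C^r` topology (the
usual one, `N` being compact), `IsPer F z`: `z` is periodic for `F` (`Pool/Agent/H718R2/G0.lean`);
`OmegaStable n N r F`: `F` is `Ω`-stable in `Diff^r(N)` (`Pool/Agent/TH80/OMS/Defs.lean`); `Md d` is the
algebra of the linear maps of `ℝᵈ` (the real `d × d` matrices).

From `Pool/Agent/Run7/h619/HG/` (helper619):
* `IsLie G g` (`Lin.lean`): `G ⊆ GL(d, ℝ)` is a connected linear Lie group with the Lie algebra `g`;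
* `HasCartan g` (`Close.lean`): some `Y ∈ g` has an abelian centraliser in `g` which is equal to the
  generalised centraliser of `Y`, an abelian Cartan subalgebra. This holds if `g` is closed under
  transposition, so for all reductive groups (`hasCartan_of_selfAdjoint`, `Crit.lean`);
* `IsGAction G n N O act` (`Defs.lean`): smooth action of `G` on the open set `O ⊆ N`;
* `IsLatticePt G g act y` (`Defs.lean`): the orbit `G y = G / Γ` is compact (`Γ` is the stabiliser of
  `y`), and the `X ∈ g` for which the set `{γ⁻¹ X γ : γ ∈ Γ}` has only finitely many elements in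
  every bounded set are dense in `g`. This holds if `G y` is compact and `Γ` is arithmetic
  (`lattice_of_arith`, `Latt.lean`);
* `IsPerOrbit G n N P F y` (`Defs.lean`): `G` acts smoothly on an open set containing `y`, the point `y`
  satisfies `P`, and the submanifold `C = G y ≅ G / Γ` is periodic for `F`: for some `m ≥ 1` one has
  `F^m(C) = C`, the sets `F^i(C)`, `0 < i < m`, do not meet `C`, and `F^m` is on `C` the translation by
  some (ARBITRARY) `h ∈ G`, possibly composed with a map of finite order which commutes with the action.
  Nothing is required of `F` elsewhere;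
* `Comm ρ f`, `IsSkew ρ a F₀ F`, `EqClosable n N r ρ F₀ z` (`Cor.lean`): `f` commutes with the action
  `ρ`; `F y = a(y) · F₀(y)`, `a` is invariant under `ρ` and `Comm ρ F₀`; every neighbourhood of `F₀` in
  `Diff^r(N)` contains maps which commute with `ρ` and for which `z` is periodic (for example `z` is
  periodic for `F₀`, or `F₀` is a translation of a torus acting on `N` and commuting with `ρ`).

In `Pool/Agent/Run7/h491/HP/Defs.lean`:
* `IsBigPt G g act y`: `IsLatticePt G g act y`, and the orbit of `y` is not a single point;
* `IsHomPiece n N F y`: `y` lies on a periodic submanifold as in `IsPerOrbit`, not a single point, for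
  some connected Lie group `G ⊆ GL(d, ℝ)` with `HasCartan g`;
* `IsHomExt n N r F z`: `F` is a cocycle extension (`IsSkew`) with values in such a group `G` of a map
  `F₀` with `EqClosable n N r ρ F₀ z`, and the orbit of `z` is as in `IsBigPt`;
* `IsTCPiece n N r F z`: `F` is the composition of a map `F₀` which commutes with an action of such a
  group `G` and for which `z` is periodic, with the time-one map of a smooth time change, invariant
  under `F₀`, of the flow of a one-parameter group of `G` (`IsTimeCh`, `IsTCMap`), and the orbit of `z`
  is as in `IsBigPt`. For `F₀ = id`: `F` is the time-one map of a smooth time change of a homogeneous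
  flow.

The closing lemmas for such maps (`MP_1e8d1a_an.HomogeneousArithmetic`, `ProductsWithTimeChanges`) and
their library are due to helper619.
-/

set_option autoImplicit false

open scoped Manifold ContDiff Topology

universe u

namespace Pool.Agent.Results.MP_4a0782_an.HomogeneousPieces

open Pool.Agent.H718R2.G Pool.Agent.TH80.OMS Run7.h491.HP

/-- Let `N` be a closed manifold, `1 ≤ r ≤ ∞`, and let `F ∈ Diff^r(N)` be `Ω`-stable. Then `F` has a
neighbourhood `U` in `Diff^r(N)` such that for all `F' ∈ U` and all points `y`:

1. `y` does not lie on a periodic homogeneous submanifold `G / Γ` of `F'` of positive dimension on which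
   the return map is a translation;
2. `F'` is not a cocycle extension, with values in a linear Lie group `G`, of a map which can be closed at
   `y` by maps commuting with the action of `G`, unless the orbit `G y` is a point (or not as in
   `IsLatticePt`);
3. the same holds for the compositions of maps `F₀` commuting with `G`, for which `y` is periodic, with
   time-one maps of smooth time changes of flows of one-parameter subgroups of `G`. -/
theorem result {n : ℕ} {N : Type u} [TopologicalSpace N] [T2Space N] [CompactSpace N]
    [ChartedSpace (V n) N] [IsManifold (𝓡 n) ∞ N] (r : ℕ∞) (hr : 1 ≤ r) (F : DiffM n N r)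
    (hF : OmegaStable n N r F) :
    ∃ U : Set (DiffM n N r), IsOpen[strongTop n N r] U ∧ F ∈ U ∧ ∀ F' ∈ U, ∀ y : N,
      ¬ IsHomPiece n N F' y ∧ ¬ IsHomExt n N r F' y ∧ ¬ IsTCPiece n N r F' y := by
  obtain ⟨U, hU, hFU, hfin⟩ := finite_per hr hF
  exact ⟨U, hU, hFU, fun F' hF' y => ⟨no_piece hU hfin F' hF' y, no_ext hU hfin F' hF' y,
    no_tcpiece hU hfin F' hF' y⟩⟩

end Pool.Agent.Results.MP_4a0782_an.HomogeneousPieces
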