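import Pool.Agent.Run7.h619.PR.Horse

/-!
# `Ω`-stable products of diffeomorphisms with homoclinic orbits: uniform hyperbolicity

`V n = ℝⁿ`, `DiffM n N r = Diff^r(N)` with its `C^r` topology `strongTop`
(`Pool/Agent/H718R2/G0.lean`); `OmegaStable`, `Per F` (`Pool/Agent/TH80/OMS/Defs.lean`, `SymDefs.lean`).

In `Pool/Agent/Run7/h619/AA/Defs.lean`:
* `dv`, `IsClosedSub`, `IsContTan`, `IsNormOn`, `Contr`, `IsSplitting`, `IsHyperbolic F K`: the closed set
  `K`, `F(K) = K`, is hyperbolic for `F` (continuous invariant splitting of the tangent bundle over `K`,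
  exponential estimates);
* `PDiff k b n M B N`: the `C^∞` diffeomorphisms `Θ : M × B → N`; `Θ.pt x y = Θ(x, y)`.

In `Pool/Agent/Run7/h619/AU/Defs.lean`: `fwd F`: the map `F`.

In `Pool/Agent/Run7/h619/PR/Defs.lean`: `Loops g π z ζ`: two different orbits `ζ 0`, `ζ 1`, not periodic,
with `d(ζ_i, z_i) → 0` for `i → ± ∞`, for one periodic orbit `z`; `loopSet z ζ`: the union of the three orbits; `ShadowOn g H`: closed pseudo-orbits in
`H` are shadowed by periodic orbits.

In `Pool/Agent/Run7/h619/PR/DefsP.lean`: `IsProd Θ f g F`: `F(Θ(x, y)) = Θ(f(x), g(y))`;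
`HasShadowedLoops g`: there are such orbits, with `ShadowOn g (loopSet z ζ)` (for instance if `g` has a
transverse homoclinic point); `PerHyp f`: the closure of the set of the periodic points of `f` is
hyperbolic.
-/

set_option autoImplicit false

open scoped Manifold ContDiff Topology

universe u v w

namespace Pool.Agent.Results.MP_4a0782_an.ProductsWithHorseshoes

open Pool.Agent.H718R2.G Pool.Agent.TH80.OMS Run7.h619.AA Run7.h619.AU Run7.h619.PR

/-- Let `M`, `B`, `N` be closed manifolds, `Θ : M × B → N` a `C^∞` diffeomorphism, `1 ≤ r ≤ ∞`,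
`f ∈ Diff^r(M)` arbitrary, and suppose that `g ∈ Diff^r(B)` has two different orbits `y`, not
periodic, with `d(y_i, z_i) → 0` for `i → ± ∞`, for one periodic orbit `z`, such that closed pseudo-orbits in the union of the three orbits are shadowed by periodic
orbits. Let `F ∈ Diff^r(N)` be the product `F(Θ(x, y)) = Θ(f(x), g(y))`.

If `F` is `Ω`-stable in `Diff^r(N)`, then the closure of the set of the periodic points of `f` is a
hyperbolic set of `f`. If, moreover, the closure of the set of the periodic points of `g` is hyperbolic for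
`g`, or `f` has such homoclinic orbits too, then the closure of the set of the periodic points of `F` is a
hyperbolic set of `F`. -/
theorem result {k b n : ℕ} {M : Type v} {B : Type w} {N : Type u} [MetricSpace M]
    [CompactSpace M] [ChartedSpace (V k) M] [IsManifold (𝓡 k) ∞ M] [MetricSpace B] [CompactSpace B]
    [ChartedSpace (V b) B] [IsManifold (𝓡 b) ∞ B] [TopologicalSpace N] [T2Space N] [CompactSpace N]
    [ChartedSpace (V n) N] [IsManifold (𝓡 n) ∞ N] (r : ℕ∞) (hr : 1 ≤ r)
    (Θ : PDiff k b n M B N) (f : DiffM k M r) (g : DiffM b B r) (F : DiffM n N r)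
    (H : IsProd Θ (fwd f) (fwd g) (fwd F)) (hg : HasShadowedLoops (fwd g))
    (hF : OmegaStable n N r F) :
    PerHyp f ∧ (PerHyp g ∨ HasShadowedLoops (fwd f) → PerHyp F) := by
  have h1 : PerHyp f := factor_hyp hr H hg hF
  refine ⟨h1, ?_⟩
  rintro (h2 | h2)
  · exact prod_hyp hr H h1 h2
  · exact (both_hyp hr H h2 hg hF).2.2

end Pool.Agent.Results.MP_4a0782_an.ProductsWithHorseshoes
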